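import Mathlib

/-!
Quotients of the spaces of Lipschitz functions: definitions in elementary terms.
-/

set_option autoImplicit false

namespace Pool.LipS

section
variable {E : Type*} [NormedAddCommGroup E]

/-- `f` belongs to `Lip_0(E)` and its Lipschitz constant (the norm of `f`) is at most `K`. -/
def LipK (f : E → ℝ) (K : ℝ) : Prop := 0 ≤ K ∧ f 0 = 0 ∧ ∀ x y, |f x - f y| ≤ K * ‖x - y‖

/-- The norm of `∑ b_j δ(x_j)` in the Lipschitz free space `F(E)`: the supremum of `∑ b_j f(x_j)`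
over all 1-Lipschitz `f` with `f 0 = 0`. -/
noncomputable def nrm {N : ℕ} (x : Fin N → E) (b : Fin N → ℝ) : ℝ :=
  sSup {r | ∃ f, LipK f 1 ∧ r = ∑ j, b j * f (x j)}

end

/-- There is a continuous linear surjection `T` from `Lip_0(E)` onto `l_1`. -/
def Onto (E : Type*) [NormedAddCommGroup E] : Prop :=
  ∃ (T : (E → ℝ) → ℕ → ℝ) (C : ℝ),
    (∀ f g K L n, LipK f K → LipK g L → T (fun x => f x + g x) n = T f n + T g n) ∧
    (∀ f K c n, LipK f K → T (fun x => c * f x) n = c * T f n) ∧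
    (∀ f K (s : Finset ℕ), LipK f K → ∑ n ∈ s, |T f n| ≤ C * K) ∧
    ∀ a : ℕ → ℝ, Summable (fun n => |a n|) → ∃ f K, LipK f K ∧ T f = a

/-- The linear span of the point evaluations in `F(E)` contains the spaces `l_∞^n` uniformly: the
vectors are `u_i = ∑_j c_ij δ(x_j)`, and `max |a_i| ≤ ‖∑ a_i u_i‖ ≤ C max |a_i|`. -/
def ContainsLinf (E : Type*) [NormedAddCommGroup E] : Prop :=
  ∃ C : ℝ, ∀ n : ℕ, ∃ (N : ℕ) (x : Fin N → E) (c : Fin n → Fin N → ℝ), ∀ a : Fin n → ℝ,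
    (∀ i, |a i| ≤ nrm x (fun j => ∑ i, a i * c i j)) ∧
      ((∀ i, |a i| ≤ 1) → nrm x (fun j => ∑ i, a i * c i j) ≤ C)

/-- `E` contains the spaces `l_1^n` uniformly. -/
def ContainsL1 (E : Type*) [NormedAddCommGroup E] [NormedSpace ℝ E] : Prop :=
  ∃ c : ℝ, 0 < c ∧ ∀ n : ℕ, ∃ u : Fin n → E, ∀ a : Fin n → ℝ,
    c * ∑ i, |a i| ≤ ‖∑ i, a i • u i‖ ∧ ‖∑ i, a i • u i‖ ≤ ∑ i, |a i|

/-- `dim E ≥ 2`. -/
def Dim2 (E : Type*) [NormedAddCommGroup E] [NormedSpace ℝ E] : Prop :=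
  ∃ u v : E, ∀ a b : ℝ, a • u + b • v = 0 → a = 0 ∧ b = 0

end Pool.LipS
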