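import Pool.Agent.H16.LipS.Defs
import Pool.Agent.H16.Lip.Plane
import Pool.Agent.H16.Lip.Riesz

/-!
The elementary definitions agree with those of `Pool.Agent.H16.Lip`.
-/

set_option autoImplicit false

universe u

namespace Pool.LipS

open Pool.Agent.H16

section
variable {E : Type*} [NormedAddCommGroup E]

theorem LipK.isLip0 {f : E → ℝ} {K : ℝ} (h : LipK f K) : Lip.IsLip0 f := ⟨⟨K, h.2.2⟩, h.2.1⟩

/-- The element of `Lip_0(E)`. -/
def toLip {f : E → ℝ} (h : Lip.IsLip0 f) : Lip.Lip0 E := ⟨f, h⟩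

theorem toLip_norm {f : E → ℝ} {K : ℝ} (h : LipK f K) : ‖toLip h.isLip0‖ ≤ K :=
  Lip.norm_le_of _ h.1 h.2.2

theorem lipK_coe (f : Lip.Lip0 E) : LipK (fun x => f x) ‖f‖ :=
  ⟨norm_nonneg _, Lip.map_zero f, Lip.sub_le_norm f⟩

theorem lipK_smul {f : E → ℝ} {K : ℝ} (h : LipK f K) (c : ℝ) : LipK (c • f) (|c| * K) := by
  refine ⟨mul_nonneg (abs_nonneg _) h.1, by simp [h.2.1], fun x y => ?_⟩
  have h1 : (c • f) x - (c • f) y = c * (f x - f y) := by
    simp only [Pi.smul_apply, smul_eq_mul]; ring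
  rw [h1, abs_mul, mul_assoc]
  exact mul_le_mul_of_nonneg_left (h.2.2 x y) (abs_nonneg _)

/-- The coordinates. -/
def co (a : lp (fun _ : ℕ => ℝ) 1) : ℕ → ℝ := fun n => a n

theorem co_add (a b : lp (fun _ : ℕ => ℝ) 1) : co (a + b) = co a + co b := rfl

theorem co_smul (c : ℝ) (a : lp (fun _ : ℕ => ℝ) 1) : co (c • a) = c • co a := rfl

theorem onto_of_mapsOntoL1 (h : Lip.MapsOntoL1 E) : Onto E := by
  classical
  obtain ⟨T, hT⟩ := h
  let T' : (E → ℝ) → ℕ → ℝ := fun f =>
    if h : Lip.IsLip0 f then co (T (toLip h)) else 0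
  have hT' : ∀ {f : E → ℝ} (h : Lip.IsLip0 f), T' f = co (T (toLip h)) := by
    intro f h
    exact dif_pos h
  refine ⟨T', ‖T‖, ?_, ?_, ?_, ?_⟩
  · intro f g K L n hf hg
    have h0 : T' (fun x => f x + g x) = T' (f + g) := rfl
    rw [h0, hT' hf.isLip0, hT' hg.isLip0, hT' (hf.isLip0.add hg.isLip0)]
    have h1 : toLip (hf.isLip0.add hg.isLip0) = toLip hf.isLip0 + toLip hg.isLip0 := rfl
    rw [h1, map_add]
    exact congrFun (co_add _ _) n
  · intro f K c n hf
    have h0 : T' (fun x => c * f x) = T' (c • f) := rfl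
    rw [h0, hT' hf.isLip0, hT' (hf.isLip0.smul c)]
    have h1 : toLip (hf.isLip0.smul c) = c • toLip hf.isLip0 := rfl
    rw [h1, map_smul]
    exact congrFun (co_smul _ _) n
  · intro f K s hf
    rw [hT' hf.isLip0]
    have h1 := lp.sum_rpow_le_norm_rpow (p := 1) (by simp) (T (toLip hf.isLip0)) s
    simp only [ENNReal.toReal_one, Real.rpow_one] at h1
    refine h1.trans ?_
    refine (T.le_opNorm _).trans ?_
    exact mul_le_mul_of_nonneg_left (toLip_norm hf) (norm_nonneg _)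
  · intro a ha
    have hmem : Memℓp (E := fun _ : ℕ => ℝ) a 1 := by
      apply memℓp_gen
      simpa using ha
    obtain ⟨f, hf⟩ := hT (⟨a, hmem⟩ : lp (fun _ : ℕ => ℝ) 1)
    refine ⟨fun x => f x, ‖f‖, lipK_coe f, ?_⟩
    rw [hT' (lipK_coe f).isLip0]
    have h2 : toLip (lipK_coe f).isLip0 = f := rfl
    rw [h2, hf]
    rfl

theorem mapsOntoL1_of_onto (h : Onto E) : Lip.MapsOntoL1 E := by
  obtain ⟨T, C, h1, h2, h3, h4⟩ := h
  have hC : 0 ≤ |C| := abs_nonneg C
  have hsum : ∀ (f : Lip.Lip0 E) (s : Finset ℕ),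
      ∑ n ∈ s, ‖T (fun x => f x) n‖ ^ (1 : ENNReal).toReal ≤ |C| * ‖f‖ := by
    intro f s
    simp only [ENNReal.toReal_one, Real.rpow_one, Real.norm_eq_abs]
    refine (h3 _ _ s (lipK_coe f)).trans ?_
    exact mul_le_mul_of_nonneg_right (le_abs_self C) (norm_nonneg _)
  have hmem : ∀ f : Lip.Lip0 E, Memℓp (E := fun _ : ℕ => ℝ) (T (fun x => f x)) 1 :=
    fun f => memℓp_gen' (hsum f)
  let A : Lip.Lip0 E →ₗ[ℝ] Lip.L1 :=
    { toFun := fun f => (⟨T (fun x => f x), hmem f⟩ : lp (fun _ : ℕ => ℝ) 1)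
      map_add' := fun f g => by
        apply Subtype.ext
        funext n
        exact h1 _ _ _ _ n (lipK_coe f) (lipK_coe g)
      map_smul' := fun c f => by
        apply Subtype.ext
        funext n
        exact h2 _ _ c n (lipK_coe f) }
  refine ⟨LinearMap.mkContinuous A |C| (fun f => ?_), ?_⟩
  · have := lp.norm_le_of_forall_sum_le (p := 1) (E := fun _ : ℕ => ℝ) (by simp)
      (mul_nonneg hC (norm_nonneg f)) (f := (⟨T (fun x => f x), hmem f⟩ : lp (fun _ : ℕ => ℝ) 1))
      (fun s => by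
        have h5 := hsum f s
        simpa using h5)
    exact this
  · intro a
    have ha : Summable (fun n => |co a n|) := by
      have := (lp.memℓp (id a : lp (fun _ : ℕ => ℝ) 1)).summable (by simp)
      simp only [ENNReal.toReal_one, Real.rpow_one, Real.norm_eq_abs] at this
      exact this
    obtain ⟨f, K, hf, hfa⟩ := h4 _ ha
    refine ⟨toLip hf.isLip0, ?_⟩
    apply Subtype.ext
    exact hfa

theorem onto_iff : Onto E ↔ Lip.MapsOntoL1 E := ⟨mapsOntoL1_of_onto, onto_of_mapsOntoL1⟩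

theorem incl_sum {N : ℕ} (x : Fin N → E) (b : Fin N → ℝ) (f : Lip.Lip0 E) :
    Lip.incl (∑ j, b j • Lip.fdelta (x j)) f = ∑ j, b j * f (x j) := by
  rw [map_sum, _root_.sum_apply]
  refine Finset.sum_congr rfl fun j _ => ?_
  rw [map_smul, Lip.incl_fdelta, _root_.smul_apply, Lip.delta_apply, smul_eq_mul]

theorem sum_le {N : ℕ} (x : Fin N → E) (b : Fin N → ℝ) {f : E → ℝ} (hf : LipK f 1) :
    ∑ j, b j * f (x j) ≤ ‖∑ j, b j • Lip.fdelta (x j)‖ := by
  have h1 := incl_sum x b (toLip hf.isLip0)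
  have h2 : ∑ j, b j * f (x j) = Lip.incl (∑ j, b j • Lip.fdelta (x j)) (toLip hf.isLip0) :=
    h1.symm
  rw [h2, ← Lip.norm_incl]
  refine (le_abs_self _).trans ?_
  rw [← Real.norm_eq_abs]
  refine (ContinuousLinearMap.le_opNorm _ _).trans ?_
  calc ‖Lip.incl (∑ j, b j • Lip.fdelta (x j))‖ * ‖toLip hf.isLip0‖
      ≤ ‖Lip.incl (∑ j, b j • Lip.fdelta (x j))‖ * 1 :=
        mul_le_mul_of_nonneg_left (toLip_norm hf) (norm_nonneg _)
    _ = _ := mul_one _

theorem bdd {N : ℕ} (x : Fin N → E) (b : Fin N → ℝ) :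
    BddAbove {r | ∃ f, LipK f 1 ∧ r = ∑ j, b j * f (x j)} := by
  refine ⟨‖∑ j, b j • Lip.fdelta (x j)‖, ?_⟩
  rintro r ⟨f, hf, rfl⟩
  exact sum_le x b hf

theorem le_nrm {N : ℕ} (x : Fin N → E) (b : Fin N → ℝ) {f : E → ℝ} (hf : LipK f 1) :
    ∑ j, b j * f (x j) ≤ nrm x b :=
  le_csSup (bdd x b) ⟨f, hf, rfl⟩

theorem lipK_zero : LipK (0 : E → ℝ) 1 :=
  ⟨zero_le_one, rfl, fun x y => by simp⟩

theorem nrm_le {N : ℕ} (x : Fin N → E) (b : Fin N → ℝ) {C : ℝ}
    (h : ∀ f, LipK f 1 → ∑ j, b j * f (x j) ≤ C) : nrm x b ≤ C := by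
  apply csSup_le
  · exact ⟨_, 0, lipK_zero, rfl⟩
  · rintro r ⟨f, hf, rfl⟩
    exact h f hf

theorem nrm_nonneg {N : ℕ} (x : Fin N → E) (b : Fin N → ℝ) : 0 ≤ nrm x b := by
  have := le_nrm x b lipK_zero
  simpa using this

theorem nrm_eq {N : ℕ} (x : Fin N → E) (b : Fin N → ℝ) :
    nrm x b = ‖∑ j, b j • Lip.fdelta (x j)‖ := by
  apply le_antisymm (nrm_le x b fun f hf => sum_le x b hf)
  rw [← Lip.norm_incl]
  apply ContinuousLinearMap.opNorm_le_bound _ (nrm_nonneg x b)
  intro f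
  rw [incl_sum, Real.norm_eq_abs]
  by_cases hf : ‖f‖ = 0
  · have h1 : f = 0 := norm_eq_zero.1 hf
    subst h1
    simp
  have hpos : 0 < ‖f‖ := lt_of_le_of_ne (norm_nonneg _) (Ne.symm hf)
  have key : ∀ e : ℝ, |e| = 1 → e * ∑ j, b j * f (x j) ≤ nrm x b * ‖f‖ := by
    intro e he
    have h1 : LipK ((e * ‖f‖⁻¹) • fun x => f x) 1 := by
      have h2 := lipK_smul (lipK_coe f) (e * ‖f‖⁻¹)
      have h3 : |e * ‖f‖⁻¹| * ‖f‖ = 1 := by
        rw [abs_mul, he, one_mul, abs_of_pos (inv_pos.2 hpos), inv_mul_cancel₀ hf]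
      rwa [h3] at h2
    have h2 := le_nrm x b h1
    have h3 : ∑ j, b j * ((e * ‖f‖⁻¹) • fun x => f x) (x j) =
        ‖f‖⁻¹ * (e * ∑ j, b j * f (x j)) := by
      rw [Finset.mul_sum, Finset.mul_sum]
      refine Finset.sum_congr rfl fun j _ => ?_
      simp only [Pi.smul_apply, smul_eq_mul]
      ring
    rw [h3] at h2
    calc e * ∑ j, b j * f (x j) = ‖f‖⁻¹ * (e * ∑ j, b j * f (x j)) * ‖f‖ := by
          field_simp
      _ ≤ nrm x b * ‖f‖ := mul_le_mul_of_nonneg_right h2 hpos.le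
  rw [abs_le]
  constructor
  · have := key (-1) (by simp)
    linarith
  · have := key 1 (by simp)
    linarith

theorem containsLinf_to (h : ContainsLinf E) : Lip.ContainsLinf (Lip.Free E) := by
  obtain ⟨C, hC⟩ := h
  refine ⟨C, fun n => ?_⟩
  obtain ⟨N, x, c, hc⟩ := hC n
  refine ⟨fun i => ∑ j, c i j • Lip.fdelta (x j), fun a => ?_⟩
  have h1 : ∑ i, a i • ∑ j, c i j • Lip.fdelta (x j) =
      ∑ j, (∑ i, a i * c i j) • Lip.fdelta (x j) := by
    simp only [Finset.smul_sum, Finset.sum_smul, smul_smul]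
    rw [Finset.sum_comm]
  have hlow : ‖a‖ ≤ nrm x (fun j => ∑ i, a i * c i j) := by
    rw [pi_norm_le_iff_of_nonneg (nrm_nonneg _ _)]
    exact (hc a).1
  refine ⟨by rw [h1, ← nrm_eq]; exact hlow, ?_⟩
  rcases eq_or_ne a 0 with ha | ha
  · subst ha
    simp
  have hpos : 0 < ‖a‖ := norm_pos_iff.2 ha
  have h2 := (hc (‖a‖⁻¹ • a)).2 (fun i => by
    simp only [Pi.smul_apply, smul_eq_mul]
    rw [abs_mul, abs_of_pos (inv_pos.2 hpos), inv_mul_le_iff₀ hpos, mul_one]
    exact norm_le_pi_norm a i)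
  rw [nrm_eq] at h2
  have h3 : ∑ j, (∑ i, (‖a‖⁻¹ • a) i * c i j) • Lip.fdelta (x j) =
      ‖a‖⁻¹ • ∑ j, (∑ i, a i * c i j) • Lip.fdelta (x j) := by
    rw [Finset.smul_sum]
    refine Finset.sum_congr rfl fun j _ => ?_
    rw [smul_smul, Finset.mul_sum]
    congr 1
    refine Finset.sum_congr rfl fun i _ => ?_
    simp only [Pi.smul_apply, smul_eq_mul]
    ring
  rw [h3, norm_smul, norm_inv, norm_norm, inv_mul_le_iff₀ hpos] at h2
  rw [h1]
  linarith

theorem containsLinf_of (h : Lip.Mol E) : ContainsLinf E := by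
  classical
  obtain ⟨C, K, h⟩ := h
  refine ⟨(|C| * max K 1), fun n => ?_⟩
  obtain ⟨m, g, hg, hmg, hC⟩ := h n
  set R : ℝ := max K 1 with hR
  have hR0 : 0 < R := lt_of_lt_of_le one_pos (le_max_right _ _)
  let S : Finset E := Finset.univ.biUnion fun i => (m i).support
  let x : Fin S.card → E := fun j => (S.equivFin.symm j : S)
  have hsum : ∀ (i : Fin n) (f : E → ℝ), ∑ j, m i (x j) * f (x j) = Lip.mol (m i) f := by
    intro i f
    have h1 : ∑ j, m i (x j) * f (x j) = ∑ y : S, m i y * f y :=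
      Equiv.sum_comp S.equivFin.symm (fun y : S => m i y * f y)
    rw [h1, Finset.sum_coe_sort S (fun y => m i y * f y)]
    unfold Lip.mol Finsupp.sum
    symm
    apply Finset.sum_subset
    · intro y hy
      exact Finset.mem_biUnion.2 ⟨i, Finset.mem_univ _, hy⟩
    · intro y _ hy
      rw [Finsupp.notMem_support_iff.1 hy]
      exact zero_mul _
  refine ⟨S.card, x, fun i j => R * m i (x j), fun a => ?_⟩
  have hcomb : ∀ f : E → ℝ, ∑ j, (∑ i, a i * (R * m i (x j))) * f (x j) =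
      R * ∑ i, a i * Lip.mol (m i) f := by
    intro f
    simp only [Finset.sum_mul]
    rw [Finset.sum_comm, Finset.mul_sum]
    refine Finset.sum_congr rfl fun i _ => ?_
    rw [← hsum, Finset.mul_sum, Finset.mul_sum]
    refine Finset.sum_congr rfl fun j _ => ?_
    ring
  constructor
  · -- the lower bound
    intro i
    have key : ∀ e : ℝ, |e| = 1 → e * a i ≤ nrm x (fun j => ∑ i, a i * (R * m i (x j))) := by
      intro e he
      have h1 : LipK ((e * R⁻¹) • fun x => g i x) 1 := by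
        have h2 := lipK_smul (lipK_coe (g i)) (e * R⁻¹)
        refine ⟨zero_le_one, h2.2.1, fun y z => (h2.2.2 y z).trans ?_⟩
        apply mul_le_mul_of_nonneg_right _ (norm_nonneg _)
        rw [abs_mul, he, one_mul, abs_of_pos (inv_pos.2 hR0)]
        rw [inv_mul_le_iff₀ hR0, mul_one]
        exact (hg i).trans (le_max_left _ _)
      have h2 := le_nrm x (fun j => ∑ i, a i * (R * m i (x j))) h1
      rw [hcomb] at h2
      have h3 : ∀ l, Lip.mol (m l) ((e * R⁻¹) • fun x => g i x) =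
          (e * R⁻¹) * (if l = i then 1 else 0) := by
        intro l
        rw [← hmg l i]
        unfold Lip.mol Finsupp.sum
        rw [Finset.mul_sum]
        refine Finset.sum_congr rfl fun y _ => ?_
        simp only [Pi.smul_apply, smul_eq_mul]
        ring
      have h4 : R * ∑ l, a l * Lip.mol (m l) ((e * R⁻¹) • fun x => g i x) = e * a i := by
        simp only [h3]
        rw [Finset.sum_eq_single i]
        · rw [if_pos rfl, mul_one]
          field_simp
        · intro l _ hl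
          rw [if_neg hl, mul_zero, mul_zero]
        · simp
      rwa [h4] at h2
    rw [abs_le]
    constructor
    · have := key (-1) (by simp)
      linarith
    · have := key 1 (by simp)
      linarith
  · -- the upper bound
    intro ha
    apply nrm_le
    intro f hf
    rw [hcomb]
    have h1 : ∑ i, a i * Lip.mol (m i) f ≤ |C| := by
      calc ∑ i, a i * Lip.mol (m i) f ≤ ∑ i, 1 * |Lip.mol (m i) f| := by
            refine Finset.sum_le_sum fun i _ => ?_
            refine (le_abs_self _).trans ?_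
            rw [abs_mul]
            exact mul_le_mul_of_nonneg_right (ha i) (abs_nonneg _)
        _ = ∑ i, |Lip.mol (m i) f| := by simp only [one_mul]
        _ ≤ |C| := by
            have h5 := hC (toLip hf.isLip0)
            have h6 : ∀ i, Lip.mol (m i) (toLip hf.isLip0) = Lip.mol (m i) f := fun i => rfl
            simp only [h6] at h5
            refine h5.trans ?_
            calc C * ‖toLip hf.isLip0‖ ≤ |C| * ‖toLip hf.isLip0‖ :=
                  mul_le_mul_of_nonneg_right (le_abs_self C) (norm_nonneg _)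
              _ ≤ |C| * 1 := mul_le_mul_of_nonneg_left (toLip_norm hf) (abs_nonneg _)
              _ = |C| := mul_one _
    calc R * ∑ i, a i * Lip.mol (m i) f ≤ R * |C| :=
          mul_le_mul_of_nonneg_left h1 hR0.le
      _ = |C| * R := by ring

end

section
variable {E : Type*} [NormedAddCommGroup E] [NormedSpace ℝ E]

theorem containsLinf_iff : ContainsLinf E ↔ Lip.MapsOntoL1 E := by
  rw [Lip.mapsOntoL1_iff]
  exact ⟨containsLinf_to, fun h => containsLinf_of (Lip.mol_of_containsLinf h)⟩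

theorem rank_of_dim2 (h : Dim2 E) : 2 ≤ Module.rank ℝ E := by
  obtain ⟨u, v, huv⟩ := h
  have h1 : LinearIndependent ℝ ![u, v] := LinearIndependent.pair_iff.2 huv
  have h2 := h1.cardinal_lift_le_rank
  simpa using h2

end

/-- The reduction to the plane. -/
theorem plane : (∃ (E : Type u) (_ : NormedAddCommGroup E) (_ : NormedSpace ℝ E)
    (_ : CompleteSpace E), Dim2 E ∧ ¬ Onto E) ↔ ¬ ContainsLinf ℂ := by
  rw [containsLinf_iff]
  constructor
  · rintro ⟨E, _, _, _, hE, hT⟩ h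
    apply hT
    rw [onto_iff]
    apply Lip.mapsOntoL1_of_plane (rank_of_dim2 hE)
    let e := Complex.orthonormalBasisOneI.repr
    exact Lip.mapsOntoL1_of_retract (e.toContinuousLinearEquiv : ℂ →L[ℝ] EuclideanSpace ℝ (Fin 2))
      (e.symm.toContinuousLinearEquiv : EuclideanSpace ℝ (Fin 2) →L[ℝ] ℂ)
      (fun x => by simp) h
  · intro h
    refine ⟨ULift.{u} ℂ, inferInstance, inferInstance, inferInstance, ?_, fun hT => h ?_⟩
    · refine ⟨ULift.up 1, ULift.up Complex.I, fun a b hab => ?_⟩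
      have h1 : (a : ℂ) + b * Complex.I = 0 := by
        have := congrArg ULift.down hab
        simpa using this
      have h2 := congrArg Complex.re h1
      have h3 := congrArg Complex.im h1
      constructor
      · simpa using h2
      · simpa using h3
    · rw [onto_iff] at hT
      exact Lip.mapsOntoL1_of_retract
        (ContinuousLinearEquiv.ulift (R₁ := ℝ) (M₁ := ℂ) : _ →L[ℝ] _)
        (ContinuousLinearEquiv.ulift (R₁ := ℝ) (M₁ := ℂ)).symm
        (fun x => by simp) hT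

theorem onto_of_containsL1 (E : Type u) [NormedAddCommGroup E] [NormedSpace ℝ E]
    (h : ContainsL1 E) : Onto E := by
  rw [onto_iff]
  exact Lip.mapsOntoL1_of_mol (Lip.mol_of_containsL1 h)

end Pool.LipS
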